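import Mathlib

set_option autoImplicit false

open Filter Topology Set Metric

namespace Pool.Agent.R231.BD

/-- the open unit bidisc `𝕌²` in `ℂ²` (the norm of `ℂ × ℂ` is the maximum norm) -/
def U2 : Set (ℂ × ℂ) := ball 0 1

/-- `S` is a normal family on the bidisc: every sequence in `S` has a subsequence that converges
locally uniformly on the bidisc -/
def NormalFamily (S : Set (ℂ × ℂ → ℂ × ℂ)) : Prop :=
  ∀ u : ℕ → (ℂ × ℂ → ℂ × ℂ), (∀ k, u k ∈ S) → ∃ φ : ℕ → ℕ, StrictMono φ ∧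
    ∃ g : ℂ × ℂ → ℂ × ℂ, TendstoLocallyUniformlyOn (fun k => u (φ k)) g atTop U2

/-- `F t`, `t ≥ 0`, is a normal Loewner chain on the bidisc: the maps `F t` are univalent
(holomorphic and injective) with `F t 0 = 0` and differential `e^t` times the identity at `0`,
their images increase with `t`, and the maps `e^{-t} F t` form a normal family. -/
structure NormalLoewnerChain (F : ℝ → ℂ × ℂ → ℂ × ℂ) : Prop where
  holo : ∀ t, 0 ≤ t → DifferentiableOn ℂ (F t) U2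
  inj : ∀ t, 0 ≤ t → InjOn (F t) U2
  zero : ∀ t, 0 ≤ t → F t 0 = 0
  deriv : ∀ t, 0 ≤ t → fderiv ℂ (F t) 0 = (Real.exp t : ℂ) • ContinuousLinearMap.id ℂ (ℂ × ℂ)
  mono : ∀ s t, 0 ≤ s → s ≤ t → F s '' U2 ⊆ F t '' U2
  normal : NormalFamily {g | ∃ t : ℝ, 0 ≤ t ∧ g = fun z => (Real.exp (-t) : ℂ) • F t z}

/-- the class `S⁰(𝕌²)` of the maps with parametric representation: the first elements of normal
Loewner chains -/
def S0 : Set (ℂ × ℂ → ℂ × ℂ) :=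
  {f | ∃ F : ℝ → ℂ × ℂ → ℂ × ℂ, NormalLoewnerChain F ∧ ∀ z ∈ U2, F 0 z = f z}

/-- the class `S⁰(𝕌², M)` of the maps in `S⁰(𝕌²)` that are bounded by `M` (in the maximum norm) -/
def S0M (M : ℝ) : Set (ℂ × ℂ → ℂ × ℂ) := {f | f ∈ S0 ∧ ∀ z ∈ U2, ‖f z‖ ≤ M}

/-! ### shears `(z₁ + a z₂², z₂)` -/

/-- the shear `(z₁ + a z₂², z₂)` -/
def shear (a : ℂ) (z : ℂ × ℂ) : ℂ × ℂ := (z.1 + a * z.2 ^ 2, z.2)

lemma mem_U2 {z : ℂ × ℂ} : z ∈ U2 ↔ ‖z.1‖ < 1 ∧ ‖z.2‖ < 1 := by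
  unfold U2
  rw [mem_ball_zero_iff, Prod.norm_def, max_lt_iff]

/-- the differential at `0` of a map `(z₁ + p(z), z₂)` with `p` vanishing to second order -/
lemma hasFDerivAt_of_second_order {p : ℂ × ℂ → ℂ} (hp : HasFDerivAt p (0 : ℂ × ℂ →L[ℂ] ℂ) 0) (c : ℂ) :
    HasFDerivAt (fun z : ℂ × ℂ => c • ((z.1 + p z, z.2) : ℂ × ℂ))
      (c • ContinuousLinearMap.id ℂ (ℂ × ℂ)) 0 := by
  have h1 : HasFDerivAt (fun z : ℂ × ℂ => z.1) (ContinuousLinearMap.fst ℂ ℂ ℂ) 0 :=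
    (ContinuousLinearMap.fst ℂ ℂ ℂ).hasFDerivAt
  have h2 : HasFDerivAt (fun z : ℂ × ℂ => z.2) (ContinuousLinearMap.snd ℂ ℂ ℂ) 0 :=
    (ContinuousLinearMap.snd ℂ ℂ ℂ).hasFDerivAt
  have h3 := ((h1.add hp).prodMk h2).const_smul c
  refine h3.congr_fderiv ?_
  ext <;> simp

lemma normalFamily_of_lipschitz {G : ℝ → ℂ × ℂ → ℂ × ℂ} {C : ℝ}
    (hG : ∀ s ∈ Icc (0 : ℝ) 1, ∀ s' ∈ Icc (0 : ℝ) 1, ∀ z ∈ U2, ‖G s z - G s' z‖ ≤ C * |s - s'|)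
    {S : Set (ℂ × ℂ → ℂ × ℂ)} (hS : ∀ u ∈ S, ∃ s ∈ Icc (0 : ℝ) 1, u = G s) :
    NormalFamily S := by
  intro u hu
  choose s hs hus using fun k => hS _ (hu k)
  obtain ⟨a, ha, φ, hφ, hlim⟩ := isCompact_Icc.tendsto_subseq hs
  refine ⟨φ, hφ, G a, ?_⟩
  apply TendstoUniformlyOn.tendstoLocallyUniformlyOn
  rw [Metric.tendstoUniformlyOn_iff]
  intro ε hε
  have h1 : Tendsto (fun k => C * |a - s (φ k)|) atTop (𝓝 (C * |a - a|)) := by
    have h2 : Tendsto (fun k => s (φ k)) atTop (𝓝 a) := hlim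
    exact ((tendsto_const_nhds.sub h2).abs).const_mul C
  rw [sub_self, abs_zero, mul_zero] at h1
  filter_upwards [h1.eventually (gt_mem_nhds hε)] with k hk z hz
  rw [dist_eq_norm, hus]
  exact (hG a ha _ (hs _) z hz).trans_lt hk

end Pool.Agent.R231.BD
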