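import Mathlib
import Pool.Agent.R231.BD.Defs

set_option autoImplicit false

open Filter Topology Set Metric

namespace Pool.Agent.R231.BD

lemma isOpen_U2 : IsOpen U2 := isOpen_ball

lemma zero_mem_U2 : (0 : ℂ × ℂ) ∈ U2 := mem_ball_self one_pos

lemma shear_injective (a : ℂ) : Function.Injective (shear a) := by
  intro z w h
  unfold shear at h
  rw [Prod.ext_iff] at h
  obtain ⟨h1, h2⟩ := h
  simp only at h1 h2
  rw [h2] at h1
  exact Prod.ext (add_right_cancel h1) h2

lemma shear_differentiable (a : ℂ) : Differentiable ℂ (shear a) := by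
  unfold shear
  fun_prop

/-- the multiples `e^t (z₁ + a z₂², z₂)`, `|a| ≤ 1`, form a normal Loewner chain -/
theorem shear_chain {a : ℂ} (ha : ‖a‖ ≤ 1) :
    NormalLoewnerChain (fun t z => (Real.exp t : ℂ) • shear a z) where
  holo t _ := by
    have h := (shear_differentiable a).const_smul (Real.exp t : ℂ)
    exact h.differentiableOn
  inj t _ := by
    intro z _ w _ h
    have h0 : (Real.exp t : ℂ) ≠ 0 := by exact_mod_cast (Real.exp_pos t).ne'
    exact shear_injective a (smul_right_injective _ h0 h)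
  zero t _ := by
    simp [shear]
  deriv t _ := by
    have hp : HasFDerivAt (fun z : ℂ × ℂ => a * z.2 ^ 2) (0 : ℂ × ℂ →L[ℂ] ℂ) 0 := by
      have h2 : HasFDerivAt (fun z : ℂ × ℂ => z.2) (ContinuousLinearMap.snd ℂ ℂ ℂ) 0 :=
        (ContinuousLinearMap.snd ℂ ℂ ℂ).hasFDerivAt
      have h3 := (h2.pow 2).const_mul a
      refine h3.congr_fderiv ?_
      ext <;> simp
    exact (hasFDerivAt_of_second_order hp _).fderiv
  mono s t _ hst := by
    rintro _ ⟨z, hz, rfl⟩
    obtain ⟨hz1, hz2⟩ := mem_U2.1 hz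
    set l : ℝ := Real.exp (s - t) with hl
    have hl0 : 0 < l := Real.exp_pos _
    have hl1 : l ≤ 1 := Real.exp_le_one_iff.2 (by linarith)
    have hexp : Real.exp t * l = Real.exp s := by
      rw [hl, ← Real.exp_add]; congr 1; ring
    have hexpC : (Real.exp t : ℂ) * (l : ℂ) = (Real.exp s : ℂ) := by exact_mod_cast hexp
    refine ⟨((l : ℂ) * z.1 + a * l * (1 - l) * z.2 ^ 2, (l : ℂ) * z.2), ?_, ?_⟩
    · rw [mem_U2]
      have hnl : ‖(l : ℂ)‖ = l := by rw [Complex.norm_real, Real.norm_of_nonneg hl0.le]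
      have hn1l : ‖(1 - l : ℂ)‖ = 1 - l := by
        rw [show (1 - l : ℂ) = ((1 - l : ℝ) : ℂ) by push_cast; rfl, Complex.norm_real,
          Real.norm_of_nonneg (by linarith)]
      constructor
      · calc ‖(l : ℂ) * z.1 + a * l * (1 - l) * z.2 ^ 2‖
            ≤ ‖(l : ℂ) * z.1‖ + ‖a * l * (1 - l) * z.2 ^ 2‖ := norm_add_le _ _
          _ = l * ‖z.1‖ + ‖a‖ * l * (1 - l) * ‖z.2‖ ^ 2 := by
              simp only [norm_mul, norm_pow, hnl, hn1l]
          _ < l * 1 + 1 * l * (1 - l) * 1 := by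
              have h1 : l * ‖z.1‖ < l * 1 := by gcongr
              have h2 : ‖a‖ * l * (1 - l) * ‖z.2‖ ^ 2 ≤ 1 * l * (1 - l) * 1 := by
                have h3 : 0 ≤ 1 - l := by linarith
                have h4 : ‖z.2‖ ^ 2 ≤ 1 := pow_le_one₀ (norm_nonneg _) hz2.le
                gcongr
              linarith
          _ ≤ 1 := by nlinarith [sq_nonneg (1 - l)]
      · simp only [norm_mul, hnl]
        calc l * ‖z.2‖ ≤ 1 * ‖z.2‖ := by gcongr
          _ < 1 := by linarith
    · simp only [shear, Prod.smul_mk, smul_eq_mul, Prod.mk.injEq]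
      rw [← hexpC]
      constructor <;> ring
  normal := by
    apply normalFamily_of_lipschitz (G := fun _ => shear a) (C := 0)
    · intro s _ s' _ z _
      simp
    · rintro u ⟨t, ht, rfl⟩
      refine ⟨0, by simp, ?_⟩
      funext z
      rw [smul_smul, ← Complex.ofReal_mul, ← Real.exp_add]
      simp

theorem shear_mem_S0 {a : ℂ} (ha : ‖a‖ ≤ 1) : shear a ∈ S0 :=
  ⟨_, shear_chain ha, fun z _ => by simp⟩

theorem shear_mem_S0M {a : ℂ} {M : ℝ} (ha : ‖a‖ ≤ 1) (haM : ‖a‖ ≤ M - 1) : shear a ∈ S0M M := by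
  refine ⟨shear_mem_S0 ha, fun z hz => ?_⟩
  obtain ⟨hz1, hz2⟩ := mem_U2.1 hz
  have h0 := norm_nonneg a
  rw [shear, Prod.norm_def, max_le_iff]
  constructor
  · calc ‖z.1 + a * z.2 ^ 2‖ ≤ ‖z.1‖ + ‖a‖ * ‖z.2‖ ^ 2 := by
          refine (norm_add_le _ _).trans ?_
          rw [norm_mul, norm_pow]
      _ ≤ 1 + ‖a‖ * 1 := by
          have h4 : ‖z.2‖ ^ 2 ≤ 1 := pow_le_one₀ (norm_nonneg _) hz2.le
          gcongr
      _ ≤ M := by linarith
  · show ‖z.2‖ ≤ M
    linarith

end Pool.Agent.R231.BD
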